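import Mathlib

set_option autoImplicit false
open Finset Polynomial

namespace Pool.Agent.H.MP_76bad1_co.A

def nn (p : ℤ[X]) : Prop := ∀ i, 0 ≤ p.coeff i

theorem nn.add {p q : ℤ[X]} (a : nn p) (b : nn q) : nn (p + q) := fun i => by
  rw [coeff_add]
  exact add_nonneg (a i) (b i)

theorem nn.mul {p q : ℤ[X]} (a : nn p) (b : nn q) : nn (p * q) := fun i => by
  rw [coeff_mul]
  exact sum_nonneg fun _ _ => mul_nonneg (a _) (b _)

theorem nnX (k : ℕ) : nn (X ^ k) := fun i => by
  rw [coeff_X_pow]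
  split_ifs <;> norm_num

theorem nnC (d : ℕ) : nn (d : ℤ[X]) := fun i => by
  rw [← C_eq_natCast, coeff_C]
  split_ifs <;> positivity

theorem nnL (d : ℕ) : nn (X + (d : ℤ[X])) := (pow_one (X : ℤ[X]) ▸ nnX 1).add (nnC d)

theorem nn.pow {p : ℤ[X]} (a : nn p) (k : ℕ) : nn (p ^ k) := by
  induction k with
  | zero => simpa using nnX 0
  | succ k ih => exact pow_succ p k ▸ ih.mul a

theorem nn.cancel {p : ℤ[X]} (k : ℕ) (a : nn (X ^ k * p)) : nn p := fun i => by
  have := a (i + k)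
  rwa [coeff_X_pow_mul] at this

structure Rk (ι : Type) [DecidableEq ι] where
  r : Finset ι → ℕ
  R : ℕ
  h1 : ∀ A e, r (insert e A) = r A ∨ r (insert e A) = r A + 1
  h2 : ∀ A B e, A ⊆ B → r (insert e A) = r A → r (insert e B) = r B
  h3 : ∀ A, r A ≤ R
  h0 : r ∅ = 0

variable {ι : Type} [DecidableEq ι] (M : Rk ι)

def Rk.cl (A : Finset ι) (e : ι) : Prop := M.r (insert e A) = M.r A

noncomputable def Rk.P (A Y : Finset ι) : ℤ[X] :=
  ∑ S ∈ Y.powerset, (-1) ^ (S.card + M.r (A ∪ S) + M.r A) * X ^ (M.R - M.r (A ∪ S))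

variable {M}

theorem Rk.cl.mono {A B : Finset ι} {e : ι} (h : M.cl A e) (s : A ⊆ B) : M.cl B e :=
  M.h2 A B e s h

theorem cl_mem {A : Finset ι} {e : ι} (h : e ∈ A) : M.cl A e := by
  rw [Rk.cl, insert_eq_of_mem h]

theorem ncl {A : Finset ι} {e : ι} (h : ¬ M.cl A e) : M.r (insert e A) = M.r A + 1 :=
  (M.h1 A e).resolve_left h

theorem rmono {A B : Finset ι} (s : A ⊆ B) : M.r A ≤ M.r B := by
  have : ∀ C, M.r A ≤ M.r (A ∪ C) := by
    intro C
    induction C using Finset.induction_on with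
    | empty => simp
    | insert e C _ ih =>
      rw [union_insert]
      rcases M.h1 (A ∪ C) e with h | h <;> omega
  simpa [union_eq_right.2 s] using this B

theorem span {A B : Finset ι} (h : ∀ f ∈ B, M.cl A f) : M.r (A ∪ B) = M.r A := by
  induction B using Finset.induction_on with
  | empty => simp
  | insert e C _ ih =>
    rw [union_insert, (h e (mem_insert_self _ _)).mono subset_union_left,
      ih fun f hf => h f (mem_insert_of_mem hf)]

theorem trans {A B : Finset ι} {e : ι} (h : ∀ f ∈ B, M.cl A f) (he : M.cl B e) : M.cl A e := by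
  have a : M.r (insert e (A ∪ B)) = _ := he.mono (B := A ∪ B) subset_union_right
  have b := span h
  have c : M.r (insert e A) ≤ M.r (insert e (A ∪ B)) := rmono (insert_subset_insert _ subset_union_left)
  have d : M.r A ≤ M.r (insert e A) := rmono (subset_insert _ _)
  unfold Rk.cl
  omega

theorem dc {A Y : Finset ι} {e : ι} (he : e ∉ Y) (h : ¬ M.cl A e) :
    M.P A (insert e Y) = M.P A Y + M.P (insert e A) Y := by
  rw [Rk.P, sum_powerset_insert he]
  congr 1
  refine sum_congr rfl fun S hS => ?_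
  rw [card_insert_of_notMem (fun h => he (mem_powerset.1 hS h)), union_insert, insert_union, ncl h]
  congr 2
  ring

theorem loop {A Y : Finset ι} {e : ι} (he : e ∉ Y) (h : M.cl A e) : M.P A (insert e Y) = 0 := by
  rw [Rk.P, sum_powerset_insert he, ← sum_add_distrib]
  refine sum_eq_zero fun S hS => ?_
  rw [card_insert_of_notMem (fun h => he (mem_powerset.1 hS h)), union_insert,
    h.mono subset_union_left]
  ring

theorem nnP (Y : Finset ι) : ∀ A, nn (M.P A Y) := by
  induction Y using Finset.induction_on with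
  | empty =>
    intro A
    simpa [Rk.P, ← two_mul, pow_mul] using nnX _
  | insert e Y he ih =>
    intro A
    by_cases h : M.cl A e
    · rw [loop he h]
      simpa using nnC 0
    · rw [dc he h]
      exact (ih _).add (ih _)

theorem mono {A Y Z : Finset ι} (h : ∀ e ∈ Z, ¬ M.cl A e) : nn (M.P A (Y ∪ Z) - M.P A Y) := by
  induction Z using Finset.induction_on with
  | empty => simpa using nnC 0
  | insert e Z _ ih =>
    have ih := ih fun f hf => h f (mem_insert_of_mem hf)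
    rw [union_insert]
    by_cases he : e ∈ Y ∪ Z
    · rwa [insert_eq_of_mem he]
    · rw [dc he (h e (mem_insert_self _ _))]
      convert ih.add (nnP (M := M) (Y ∪ Z) (insert e A)) using 1
      ring

theorem free {A F : Finset ι} {e : ι} (h : ¬ M.cl (A ∪ F) e) :
    X * M.P (insert e A) F = M.P A F := by
  rw [Rk.P, Rk.P, mul_sum]
  refine sum_congr rfl fun S hS => ?_
  have a : ¬ M.cl (A ∪ S) e := fun x => h (x.mono (union_subset_union_right (mem_powerset.1 hS)))
  have b : ¬ M.cl A e := fun x => h (x.mono subset_union_left)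
  have c := M.h3 (insert e (A ∪ S))
  rw [insert_union, ncl b]
  rw [ncl a] at c ⊢
  rw [show M.R - M.r (A ∪ S) = M.R - (M.r (A ∪ S) + 1) + 1 by omega]
  ring

theorem layer {A F L : Finset ι} (h : ∀ e ∈ L, ¬ M.cl (A ∪ F) e)
    (p : ∀ e ∈ L, ∀ f ∈ L, e ≠ f → ¬ M.cl (insert e A) f) :
    nn (X * M.P A (F ∪ L) - (X + (L.card : ℤ[X])) * M.P A F) := by
  induction L using Finset.induction_on with
  | empty => simpa using nnC 0
  | insert e L he ih =>
    have ih := ih (fun f hf => h f (mem_insert_of_mem hf))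
      fun a ha b hb => p a (mem_insert_of_mem ha) b (mem_insert_of_mem hb)
    have a := h e (mem_insert_self _ _)
    have b : e ∉ F ∪ L := fun x => (mem_union.1 x).elim
      (fun x => a (cl_mem (mem_union_right _ x))) he
    have c := (nnX 1).mul (mono (M := M) (A := insert e A) (Y := F) (Z := L) fun f hf =>
      p e (mem_insert_self _ _) f (mem_insert_of_mem hf) (by rintro rfl; exact he hf))
    rw [union_insert, dc b fun x => a (x.mono subset_union_left), card_insert_of_notMem he]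
    convert ih.add c using 1
    push_cast
    linear_combination free a

def Rk.T (M : Rk ι) (D : Finset ι) (k : ℕ) (p : ℤ[X]) : Prop :=
  nn p ∧ nn (X ^ k * M.P ∅ D - X ^ M.R * p)

theorem T0 : M.T ∅ 0 1 := ⟨by simpa using nnC 1, by simpa [Rk.P, M.h0] using nnC 0⟩

theorem step {D L : Finset ι} {k : ℕ} {p : ℤ[X]} (d : ℕ) (t : M.T D k p)
    (h : ∀ e ∈ L, ¬ M.cl D e) (q : ∀ e ∈ L, ∀ f ∈ L, e ≠ f → ¬ M.cl {e} f) (hd : d ≤ L.card) :
    M.T (D ∪ L) (k + 1) (p * (X + (d : ℤ[X]))) := by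
  refine ⟨t.1.mul (nnL d), ?_⟩
  obtain ⟨c, hc⟩ := Nat.exists_eq_add_of_le hd
  have a := (nnX k).mul (layer (M := M) (A := ∅) (F := D) (L := L) (by simpa using h)
    (by simpa using q))
  rw [hc] at a
  convert (a.add ((nnL d).mul t.2)).add (((nnX k).mul (nnC c)).mul (nnP (M := M) D ∅)) using 1
  push_cast
  ring

theorem fin {D E : Finset ι} {p : ℤ[X]} (t : M.T D M.R p) (s : D ⊆ E)
    (h : ∀ e ∈ E, ¬ M.cl ∅ e) : nn (M.P ∅ E - p) := by
  have a := mono (M := M) (Y := D) h
  rw [union_eq_right.2 s] at a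
  have b := t.2
  rw [← mul_sub] at b
  convert a.add (b.cancel _) using 1
  ring

def chk (D : Finset (Sym2 (Fin 6))) (e : Sym2 (Fin 6)) : Prop :=
  e ∉ D ∧ ∃ i j k l : Fin 6, e = s(i, j) ∧ i.val % 2 ≠ k.val % 2 ∧ k.val % 2 ≠ l.val % 2 ∧
    l.val % 2 ≠ j.val % 2 ∧ s(i, k) ∉ insert e D ∧ s(k, l) ∉ insert e D ∧ s(l, j) ∉ insert e D

instance (D : Finset (Sym2 (Fin 6))) (e : Sym2 (Fin 6)) : Decidable (chk D e) := by
  unfold chk
  infer_instance

def E0 : Finset (Sym2 (Fin 6)) :=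
  {s(4, 5), s(2, 5), s(0, 1), s(0, 3), s(0, 5), s(2, 1), s(4, 1), s(4, 3), s(2, 3)}

theorem k33 (N : Rk (Sym2 (Fin 6))) (hR : N.R = 4) (h : ∀ D e, chk D e → ¬ N.cl D e) :
    nn (N.P ∅ E0 - (X + 1) * (X + 2) * (X + 3) ^ 2) := by
  have st : ∀ {D L k p} (d : ℕ), N.T D k p → (∀ e ∈ L, chk D e) →
      (∀ e ∈ L, ∀ f ∈ L, e ≠ f → chk {e} f) → d ≤ L.card → N.T (D ∪ L) (k + 1) (p * (X + (d : ℤ[X]))) :=
    fun d t a b c => step d t (fun e he => h _ _ (a e he))
      (fun e he f hf x => h _ _ (b e he f hf x)) c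
  have ly : ∀ A F L, (∀ e ∈ L, chk (A ∪ F) e) →
      (∀ e ∈ L, ∀ f ∈ L, e ≠ f → chk (insert e A) f) →
      nn (X * N.P A (F ∪ L) - (X + (L.card : ℤ[X])) * N.P A F) := fun A F L a b =>
    layer (fun e he => h _ _ (a e he)) (fun e he f hf x => h _ _ (b e he f hf x))
  let F : Finset (Sym2 (Fin 6)) := {s(0, 1), s(0, 3), s(0, 5)}
  let U : Finset (Sym2 (Fin 6)) := {s(2, 1), s(4, 1)}
  let W : Finset (Sym2 (Fin 6)) := {s(4, 3), s(2, 3)}
  have t := (st (L := {s(0, 3), s(0, 5)}) 2 (st (L := {s(0, 1)}) 1 T0 (by decide +kernel)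
    (by decide +kernel) (by simp)) (by decide +kernel) (by decide +kernel) (by decide +kernel)).2
  rw [show (∅ : Finset (Sym2 (Fin 6))) ∪ {s(0, 1)} ∪ {s(0, 3), s(0, 5)} = F by decide +kernel,
    hR] at t
  have a1 := ly ∅ F U (by decide +kernel) (by decide +kernel)
  have a2 := ly ∅ (F ∪ U) W (by decide +kernel) (by decide +kernel)
  have b1 := ly {s(2, 5)} F (U ∪ {s(4, 3)}) (by decide +kernel) (by decide +kernel)
  have b2 := mono (M := N) (A := {s(2, 5)}) (Y := F ∪ (U ∪ {s(4, 3)})) (Z := W)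
    fun e he => h _ _ (by revert e; decide +kernel)
  have b3 := free (M := N) (A := ∅) (F := F) (h _ s(2, 5) (by decide +kernel))
  have c1 := ly {s(4, 5)} F U (by decide +kernel) (by decide +kernel)
  have c2 := mono (M := N) (A := {s(4, 5)}) (Y := F ∪ U) (Z := insert s(2, 5) W)
    fun e he => h _ _ (by revert e; decide +kernel)
  have c3 := free (M := N) (A := ∅) (F := F) (h _ s(4, 5) (by decide +kernel))
  have d1 := dc (M := N) (A := ∅) (Y := F ∪ U ∪ W) (e := s(2, 5)) (by decide +kernel)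
    (h _ _ (by decide +kernel))
  have d2 := dc (M := N) (A := ∅) (Y := insert s(2, 5) (F ∪ U ∪ W)) (e := s(4, 5))
    (by decide +kernel) (h _ _ (by decide +kernel))
  rw [show F ∪ (U ∪ {s(4, 3)}) ∪ W = F ∪ U ∪ W by decide +kernel] at b2
  rw [show F ∪ U ∪ insert s(2, 5) W = insert s(2, 5) (F ∪ U ∪ W) by decide +kernel] at c2
  rw [show insert s(4, 5) (insert s(2, 5) (F ∪ U ∪ W)) = E0 by decide +kernel] at d2
  rw [show U.card = 2 by decide +kernel] at a1 c1
  rw [show W.card = 2 by decide +kernel] at a2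
  rw [show (U ∪ {s(4, 3)}).card = 3 by decide +kernel] at b1
  rw [insert_empty_eq] at b3 c3 d1 d2
  refine nn.cancel 4 ?_
  convert ((((((((nnX 3).mul a2).add (((nnX 2).mul (nnL 2)).mul a1)).add ((nnX 3).mul b1)).add
    ((nnX 4).mul b2)).add ((nnX 3).mul c1)).add ((nnX 4).mul c2)).add
    (((nnL 3).pow 2).mul t)) using 1
  rw [d2, d1]
  push_cast
  linear_combination (X ^ 2 * (X + 3)) * b3 + (X ^ 2 * (X + 2)) * c3

end Pool.Agent.H.MP_76bad1_co.A
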