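import Mathlib
import Pool.Agent.H.MP_76bad1_co.A

set_option autoImplicit false
open Finset Module SimpleGraph

namespace Pool.Agent.H.MP_76bad1_co.B
open Pool.Agent.H.MP_76bad1_co.A

variable {V : Type} [Fintype V] [DecidableEq V] (G : SimpleGraph V) [DecidableRel G.Adj]

def W (D : Finset (Sym2 V)) : Submodule ℝ (V → ℝ) where
  carrier := {x | ∀ u v, G.Adj u v → s(u, v) ∉ D → x u = x v}
  add_mem' := fun a b u v h1 h2 => by rw [Pi.add_apply, Pi.add_apply, a u v h1 h2, b u v h1 h2]
  zero_mem' := fun _ _ _ _ => rfl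
  smul_mem' := fun c x a u v h1 h2 => by rw [Pi.smul_apply, Pi.smul_apply, a u v h1 h2]

noncomputable def w (D : Finset (Sym2 V)) : ℕ := finrank ℝ (W G D)

theorem w_eq (D : Finset (Sym2 V)) :
    Nat.card (fromEdgeSet ((G.edgeFinset \ D : Finset _) : Set (Sym2 V))).ConnectedComponent =
      w G D := by
  classical
  rw [Nat.card_eq_fintype_card, card_connectedComponent_eq_finrank_ker_toLin'_lapMatrix, w]
  have : LinearMap.ker (Matrix.toLin' ((fromEdgeSet ((G.edgeFinset \ D : Finset _) :
      Set (Sym2 V))).lapMatrix ℝ)) = W G D := by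
    ext x
    rw [LinearMap.mem_ker, Matrix.toLin'_apply, lapMatrix_mulVec_eq_zero_iff_forall_adj]
    refine ⟨fun h u v a b => h u v ?_, fun h u v a => ?_⟩
    · simp [a, b, a.ne]
    · simp only [coe_sdiff, coe_edgeFinset, fromEdgeSet_adj, Set.mem_sdiff, mem_edgeSet,
        mem_coe] at a
      exact h u v a.1.1 a.1.2
  rw [this]

def cr (Y : V → Prop) (e : Sym2 V) : Prop := ∃ a b, e = s(a, b) ∧ Y a ∧ ¬ Y b

omit [Fintype V] [DecidableEq V] in
theorem cr_iff {Y : V → Prop} {a b : V} : cr Y s(a, b) ↔ ¬ (Y a ↔ Y b) := by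
  constructor
  · rintro ⟨c, d, e, h1, h2⟩
    rcases Sym2.eq_iff.1 e with ⟨rfl, rfl⟩ | ⟨rfl, rfl⟩ <;> tauto
  · intro h
    by_cases ha : Y a
    · exact ⟨a, b, rfl, ha, by tauto⟩
    · exact ⟨b, a, Sym2.eq_swap, by tauto, ha⟩

def K (D : Finset (Sym2 V)) (e : Sym2 V) : Prop :=
  ∃ Y, cr Y e ∧ ∀ u v, G.Adj u v → ¬ (Y u ↔ Y v) → s(u, v) ∈ D ∨ s(u, v) = e

omit [DecidableRel G.Adj] in
theorem w1 (D : Finset (Sym2 V)) (e : Sym2 V) : (¬ K G D e ∨ e ∉ G.edgeSet → w G (insert e D) = w G D) ∧
    (K G D e → e ∉ D → e ∈ G.edgeSet → w G (insert e D) = w G D + 1) := by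
  have le : W G D ≤ W G (insert e D) := fun x h u v a b => h u v a fun c => b (mem_insert_of_mem c)
  constructor
  · intro h
    have : W G (insert e D) = W G D := by
      refine le_antisymm (fun x hx u v a b => ?_) le
      by_contra hne
      have he : s(u, v) = e := by
        by_contra c
        exact hne (hx u v a (by simp [b, c]))
      rcases h with h | h
      · refine h ⟨fun y => x y = x u, he ▸ cr_iff.2 (by simpa using Ne.symm hne), fun p q c d => ?_⟩
        by_contra f
        exact d (by beta_reduce; rw [hx p q c (by simpa [or_comm] using f)])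
      · exact h (he ▸ a)
    rw [w, this, w]
  · rintro ⟨Y, ⟨a, b, rfl, ya, yb⟩, hY⟩ h1 h2
    classical
    let φ : Module.Dual ℝ (V → ℝ) := (LinearMap.proj a : (V → ℝ) →ₗ[ℝ] ℝ) - (LinearMap.proj b : (V → ℝ) →ₗ[ℝ] ℝ)
    let x : V → ℝ := fun y => if Y y then 1 else 0
    have x1 : x ∈ W G (insert s(a, b) D) := fun u v c d => by
      have : Y u ↔ Y v := by
        by_contra f
        exact d (by simpa [or_comm] using hY u v c f)
      simp [x, this]
    have x2 : x ∉ W G D := fun h => by simpa [x, ya, yb] using h a b h2 h1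
    have l1 : w G D < w G (insert s(a, b) D) :=
      Submodule.finrank_lt_finrank_of_lt (lt_of_le_of_ne le fun h => x2 (h ▸ x1))
    have hφ : φ ≠ 0 := fun h => by simpa [φ, x, ya, yb] using LinearMap.congr_fun h x
    have l2 := Module.Dual.finrank_ker_add_one_of_ne_zero hφ
    have l3 := Submodule.finrank_sup_add_finrank_inf_eq (W G (insert s(a, b) D)) (LinearMap.ker φ)
    have l4 := Submodule.finrank_le (W G (insert s(a, b) D) ⊔ LinearMap.ker φ)
    have l5 : finrank ℝ (W G (insert s(a, b) D) ⊓ LinearMap.ker φ : Submodule ℝ _) ≤ w G D := by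
      refine Submodule.finrank_mono fun z hz u v c d => ?_
      by_cases f : s(u, v) = s(a, b)
      · have : z a = z b := by simpa [φ, sub_eq_zero] using hz.2
        rcases Sym2.eq_iff.1 f with ⟨rfl, rfl⟩ | ⟨rfl, rfl⟩
        exacts [this, this.symm]
      · exact hz.1 u v c (by simp only [mem_insert, not_or]; exact ⟨f, d⟩)
    unfold w at *
    omega

theorem w0 (hc : G.Connected) : w G ∅ = 1 := by
  rw [← w_eq, sdiff_empty, coe_edgeFinset, fromEdgeSet_edgeSet, Nat.card_eq_one_iff_unique]
  exact ⟨hc.preconnected.subsingleton_connectedComponent, hc.nonempty.map G.connectedComponentMk⟩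

theorem wle (hc : G.Connected) (D : Finset (Sym2 V)) : w G D ≤ (D ∩ G.edgeFinset).card + 1 := by
  induction D using Finset.induction_on with
  | empty => simp [w0 G hc]
  | insert e D he ih =>
    have := w1 G D e
    by_cases h : e ∈ G.edgeSet
    · rw [insert_inter_of_mem (mem_edgeFinset.2 h), card_insert_of_notMem (by simp [he])]
      by_cases k : K G D e
      · rw [this.2 k he h]
        omega
      · rw [this.1 (Or.inl k)]
        omega
    · rw [insert_inter_of_notMem (by simpa using h), this.1 (Or.inr h)]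
      exact ih

noncomputable def ρ (D : Finset (Sym2 V)) : ℕ := (D ∩ G.edgeFinset).card + 1 - w G D

theorem r1 (hc : G.Connected) (D : Finset (Sym2 V)) (e : Sym2 V) :
    (e ∈ D ∨ e ∉ G.edgeSet ∨ K G D e) ∧ ρ G (insert e D) = ρ G D ∨
    ¬ (e ∈ D ∨ e ∉ G.edgeSet ∨ K G D e) ∧ ρ G (insert e D) = ρ G D + 1 := by
  have := w1 G D e
  have l := wle G hc D
  by_cases he : e ∈ D
  · simp [he]
  by_cases h : e ∈ G.edgeSet
  · rw [ρ, ρ, insert_inter_of_mem (mem_edgeFinset.2 h), card_insert_of_notMem (by simp [he])]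
    by_cases k : K G D e
    · rw [this.2 k he h]
      exact Or.inl ⟨by simp [k], by omega⟩
    · rw [this.1 (Or.inl k)]
      exact Or.inr ⟨by simp [k, he, h], by omega⟩
  · rw [ρ, ρ, insert_inter_of_notMem (by simpa using h), this.1 (Or.inr h)]
    simp [h]

noncomputable def M (hc : G.Connected) : Rk (Sym2 V) where
  r := ρ G
  R := G.edgeFinset.card + 1 - Fintype.card V
  h1 := fun A e => by rcases r1 G hc A e with h | h <;> simp [h.2]
  h2 := fun A B e s h => by
    rcases r1 G hc A e with a | a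
    · rcases r1 G hc B e with b | b
      · exact b.2
      · refine absurd ?_ b.1
        rcases a.1 with c | c | ⟨Y, c, d⟩
        exacts [Or.inl (s c), Or.inr (Or.inl c),
          Or.inr (Or.inr ⟨Y, c, fun u v x y => (d u v x y).imp_left (@s _)⟩)]
    · omega
  h3 := fun A => by
    have : ∀ C, ρ G A ≤ ρ G (A ∪ C) := by
      intro C
      induction C using Finset.induction_on with
      | empty => simp
      | insert e C _ ih =>
        rw [union_insert]
        rcases r1 G hc (A ∪ C) e with h | h <;> omega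
    refine (this univ).trans (le_of_eq ?_)
    have : W G univ = ⊤ := eq_top_iff.2 fun x _ u v _ h => absurd (mem_univ _) h
    rw [union_eq_right.2 (subset_univ _), ρ, w, this]
    simp
  h0 := by simp [ρ, w0 G hc]

variable {G} {hc : G.Connected}

theorem cl_iff {D : Finset (Sym2 V)} {e : Sym2 V} (he : e ∈ G.edgeSet) :
    (M G hc).cl D e ↔ e ∈ D ∨ K G D e := by
  show ρ G (insert e D) = ρ G D ↔ _
  rcases r1 G hc D e with h | h
  · simpa [h.2, he] using h.1
  · simpa [h.2, he] using h.1

theorem rE : (M G hc).r G.edgeFinset = (M G hc).R := by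
  have : W G G.edgeFinset = ⊤ := eq_top_iff.2 fun x _ u v a h => absurd (by simpa using a) h
  show ρ G _ = G.edgeFinset.card + 1 - Fintype.card V
  rw [ρ, w, this]
  simp

end Pool.Agent.H.MP_76bad1_co.B
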