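import Mathlib
import Pool.Agent.H.MP_76bad1_co.B

set_option autoImplicit false
set_option linter.unusedSectionVars false
open Finset SimpleGraph Polynomial

namespace Pool.Agent.H.MP_76bad1_co.C
open Pool.Agent.H.MP_76bad1_co.A Pool.Agent.H.MP_76bad1_co.B

theorem sym {ι : Type} [DecidableEq ι] {M : Rk ι} {e f : ι} (a : ¬ M.cl ∅ e) (b : ¬ M.cl ∅ f)
    (h : M.cl {e} f) : M.cl {f} e := by
  have a := ncl a
  have b := ncl b
  unfold Rk.cl at *
  rw [insert_empty_eq] at a b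
  rw [pair_comm]
  omega

theorem rk1 {ι : Type} [DecidableEq ι] {M : Rk ι} {D L : Finset ι} {e : ι}
    (h : ∀ f ∈ L, M.cl (insert e D) f) : M.r (D ∪ L) ≤ M.r D + 1 := by
  have a := span h
  have b : M.r (D ∪ L) ≤ M.r (insert e D ∪ L) :=
    rmono (union_subset_union_left (subset_insert _ _))
  rcases M.h1 D e with c | c <;> omega

variable {V : Type} [Fintype V] [DecidableEq V] {G : SimpleGraph V} [DecidableRel G.Adj]

def St (G : SimpleGraph V) (v a b c : V) : Prop :=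
  a ≠ b ∧ a ≠ c ∧ b ≠ c ∧ ∀ x, G.Adj v x ↔ x = a ∨ x = b ∨ x = c

theorem St.s12 {v a b c : V} (h : St G v a b c) : St G v b a c :=
  ⟨h.1.symm, h.2.2.1, h.2.1, fun x => by rw [h.2.2.2]; tauto⟩

theorem St.s23 {v a b c : V} (h : St G v a b c) : St G v a c b :=
  ⟨h.2.1, h.1, h.2.2.1.symm, fun x => by rw [h.2.2.2]; tauto⟩

theorem St.a {v a b c : V} (h : St G v a b c) : G.Adj v a := (h.2.2.2 a).2 (Or.inl rfl)
theorem St.b {v a b c : V} (h : St G v a b c) : G.Adj v b := h.s12.a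
theorem St.c {v a b c : V} (h : St G v a b c) : G.Adj v c := h.s23.b

theorem ex1 (h3 : G.IsRegularOfDegree 3) {v a : V} (h : G.Adj v a) : ∃ b c, St G v a b c := by
  obtain ⟨x, y, z, h1, h2, h4, h5⟩ := card_eq_three.1 (h3 v)
  have s : St G v x y z := ⟨h1, h2, h4, fun t => by rw [← mem_neighborFinset, h5]; simp⟩
  rcases (s.2.2.2 a).1 h with rfl | rfl | rfl
  exacts [⟨_, _, s⟩, ⟨_, _, s.s12⟩, ⟨_, _, s.s23.s12⟩]

theorem ex2 (h3 : G.IsRegularOfDegree 3) {v a b : V} (h : G.Adj v a) (h' : G.Adj v b)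
    (n : a ≠ b) : ∃ c, St G v a b c := by
  obtain ⟨y, z, s⟩ := ex1 h3 h
  rcases (s.2.2.2 b).1 h' with rfl | rfl | rfl
  exacts [absurd rfl n, ⟨_, s⟩, ⟨_, s.s23⟩]

structure Cub (G : SimpleGraph V) [DecidableRel G.Adj] : Prop where
  hc : G.Connected
  hb : ∀ e ∈ G.edgeSet, ¬ G.IsBridge e
  h3 : G.IsRegularOfDegree 3

variable (g : Cub G)
include g

theorem nob (Y : V → Prop) {a b : V} (h : G.Adj a b) (c : ¬ (Y a ↔ Y b))
    (d : ∀ u v, G.Adj u v → ¬ (Y u ↔ Y v) → s(u, v) = s(a, b)) : False := by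
  have := g.hb _ (show s(a, b) ∈ G.edgeSet from h)
  rw [isBridge_iff, not_not] at this
  obtain ⟨p⟩ := this
  apply c
  clear c h
  generalize s(a, b) = e at p d
  induction p with
  | nil => rfl
  | cons h _ ih =>
    rw [deleteEdges_adj] at h
    refine Iff.trans ?_ ih
    by_contra c
    exact h.2 (d _ _ h.1 c)

theorem nl {e : Sym2 V} (h : e ∈ G.edgeSet) : ¬ (M G g.hc).cl ∅ e := by
  rw [cl_iff h]
  rintro (c | ⟨Y, ⟨a, b, rfl, c, d⟩, f⟩)
  · simp at c
  · exact nob g Y h (by tauto) fun u v x y => by simpa using f u v x y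

theorem star {D : Finset (Sym2 V)} {v a b c : V} (s : St G v a b c)
    (h1 : (M G g.hc).cl D s(v, b)) (h2 : (M G g.hc).cl D s(v, c)) : (M G g.hc).cl D s(v, a) := by
  refine trans (B := {s(v, b), s(v, c)}) (by simp [h1, h2]) ?_
  refine (cl_iff (by exact s.a)).2 (Or.inr ⟨(· = v), cr_iff.2 (by simpa using s.a.ne'), ?_⟩)
  have k : ∀ x, G.Adj v x → s(v, x) ∈ ({s(v, b), s(v, c)} : Finset _) ∨ s(v, x) = s(v, a) := by
    intro x hx
    rcases (s.2.2.2 x).1 hx with rfl | rfl | rfl <;> simp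
  intro x y h n
  by_cases e : x = v
  · exact e ▸ k y (e ▸ h)
  · have : y = v := by tauto
    subst this
    rw [Sym2.eq_swap (a := x)]
    exact k x h.symm

theorem cut {a b : V} {e : Sym2 V} (h : G.Adj a b) (n : s(a, b) ≠ e)
    (c : (M G g.hc).cl {e} s(a, b)) : ∃ Y : V → Prop, Y a ∧ ¬ Y b ∧
      ∀ u v, G.Adj u v → ¬ (Y u ↔ Y v) → s(u, v) = e ∨ s(u, v) = s(a, b) := by
  rcases (cl_iff (by exact h)).1 c with c | ⟨Y, c, d⟩
  · exact absurd (mem_singleton.1 c) n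
  · rw [cr_iff] at c
    by_cases y : Y a
    · exact ⟨Y, y, by tauto, by simpa using d⟩
    · exact ⟨fun x => ¬ Y x, y, by tauto, fun u v x z => by simpa using d u v x (by tauto)⟩

theorem np2 {v a b : V} (ha : G.Adj v a) (hb : G.Adj v b) (n : a ≠ b) :
    ¬ (M G g.hc).cl {s(v, a)} s(v, b) := by
  intro c
  obtain ⟨Y, y1, y2, d⟩ := cut g hb (by simp [n.symm, ha.ne, hb.ne]) c
  obtain ⟨c, s⟩ := ex2 g.h3 ha hb n
  have yc : Y c := by
    by_contra x
    simpa [s.2.1.symm, s.2.2.1.symm, ha.ne, hb.ne] using d v c s.c (by tauto)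
  by_cases ya : Y a
  · refine nob g Y hb (by tauto) fun x y p q => (d x y p q).resolve_left fun e => ?_
    rcases Sym2.eq_iff.1 e with ⟨rfl, rfl⟩ | ⟨rfl, rfl⟩ <;> tauto
  · have k : ∀ x y, G.Adj x y → Y x ∧ x ≠ v → ¬ (Y y ∧ y ≠ v) → s(x, y) = s(v, c) := by
      intro x y p q r
      by_cases e : y = v
      · subst e
        rcases (s.2.2.2 x).1 p.symm with rfl | rfl | rfl
        exacts [absurd q.1 ya, absurd q.1 y2, Sym2.eq_swap]
      · rcases d x y p (by tauto) with e | e <;>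
          rcases Sym2.eq_iff.1 e with ⟨rfl, rfl⟩ | ⟨rfl, rfl⟩ <;> tauto
    refine nob g (fun x => Y x ∧ x ≠ v) s.c (by simp [yc, s.c.ne']) fun x y p q => ?_
    by_cases e : Y x ∧ x ≠ v
    · exact k x y p e (by tauto)
    · rw [Sym2.eq_swap]
      exact k y x p.symm (by tauto) e

theorem mixed {D : Finset (Sym2 V)} (Z : V → Prop)
    (hZ : ∀ u v, G.Adj u v → Z u → ¬ Z v → (M G g.hc).cl D s(u, v))
    {p q : V} (h1 : G.Adj p q) (h2 : (M G g.hc).cl D s(p, q))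
    {u v : V} (h3 : G.Adj u v) (h4 : Z u) (h5 : ¬ (M G g.hc).cl D s(u, v)) :
    ∃ v a b c, Z v ∧ St G v a b c ∧ ¬ (M G g.hc).cl D s(v, a) ∧ ¬ (M G g.hc).cl D s(v, b) ∧
      (M G g.hc).cl D s(v, c) := by
  by_contra hn
  have k : ∀ v a c, Z v → G.Adj v a → G.Adj v c → (M G g.hc).cl D s(v, c) →
      (M G g.hc).cl D s(v, a) := by
    intro v a c z x y t
    by_contra r
    obtain ⟨b, s⟩ := ex2 g.h3 x y (by rintro rfl; exact r t)
    exact hn ⟨v, a, b, c, z, s.s23, r, fun f => r (star g s t f), t⟩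
  have : ∀ x y, G.Walk x y → (Z x ∧ ∀ t, G.Adj x t → ¬ (M G g.hc).cl D s(x, t)) →
      (Z y ∧ ∀ t, G.Adj y t → ¬ (M G g.hc).cl D s(y, t)) := by
    intro x y w
    induction w with
    | nil => exact id
    | @cons x z _ h _ ih =>
      intro a
      have b : Z z := by
        by_contra b
        exact a.2 z h (hZ _ _ h a.1 b)
      exact ih ⟨b, fun t c d => a.2 z h (Sym2.eq_swap ▸ k z x t b h.symm c d)⟩
  obtain ⟨w⟩ := g.hc.preconnected u p
  exact (this u p w ⟨h4, fun t a b => h5 (k u v t h4 h3 a b)⟩).2 q h1 h2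

theorem next {D : Finset (Sym2 V)} {v a : V} (h : G.Adj v a) (n : ¬ (M G g.hc).cl D s(v, a)) :
    ∃ c, G.Adj a c ∧ c ≠ v ∧ ¬ (M G g.hc).cl D s(a, c) := by
  obtain ⟨b, c, s⟩ := ex1 g.h3 h.symm
  by_cases x : (M G g.hc).cl D s(a, b)
  · exact ⟨c, s.c, s.2.1.symm, fun y => n (Sym2.eq_swap ▸ star g s x y)⟩
  · exact ⟨b, s.b, s.1.symm, x⟩

def Ok (D L : Finset (Sym2 V)) : Prop :=
  L ⊆ G.edgeFinset ∧ (∀ e ∈ L, ¬ (M G g.hc).cl D e) ∧
    ∀ e ∈ L, ∀ f ∈ L, e ≠ f → ¬ (M G g.hc).cl {e} f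

theorem ok3 {D : Finset (Sym2 V)} {v a b c : V} (ha : G.Adj v a) (hb : G.Adj v b) (n : a ≠ b)
    (hc : G.Adj a c) (m : c ≠ v) (h1 : ¬ (M G g.hc).cl D s(v, a)) (h2 : ¬ (M G g.hc).cl D s(v, b))
    (h3 : ¬ (M G g.hc).cl D s(a, c)) (h : ¬ (M G g.hc).cl {s(v, b)} s(a, c)) :
    ∃ L, Ok g D L ∧ 3 ≤ L.card := by
  have a1 := np2 g ha hb n
  have a2 := np2 g hb ha n.symm
  have a3 := np2 g ha.symm hc m.symm
  have a4 := np2 g hc ha.symm m
  rw [Sym2.eq_swap (a := a) (b := v)] at a3 a4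
  have a5 : ¬ (M G g.hc).cl {s(a, c)} s(v, b) := fun x =>
    h (sym (nl g (by exact hc)) (nl g (by exact hb)) x)
  refine ⟨{s(v, a), s(v, b), s(a, c)}, ⟨?_, ?_, ?_⟩, ?_⟩
  · simp [insert_subset_iff, ha, hb, hc]
  · simp [h1, h2, h3]
  · simp only [mem_insert, mem_singleton]
    rintro e (rfl | rfl | rfl) f (rfl | rfl | rfl) <;> simp [*]
  · rw [card_eq_three.2 ⟨_, _, _, by simp [n, ha.ne, hb.ne], by simp [ha.ne, m.symm],
      by simp [ha.ne, m.symm], rfl⟩]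

theorem three {D : Finset (Sym2 V)} {v a b : V} (ha : G.Adj v a) (hb : G.Adj v b) (n : a ≠ b)
    (h1 : ¬ (M G g.hc).cl D s(v, a)) (h2 : ¬ (M G g.hc).cl D s(v, b)) :
    ∃ L, Ok g D L ∧ 3 ≤ L.card := by
  obtain ⟨c, c1, c2, c3⟩ := next g ha h1
  obtain ⟨d, d1, d2, d3⟩ := next g hb h2
  by_cases x : (M G g.hc).cl {s(v, b)} s(a, c)
  swap
  · exact ok3 g ha hb n c1 c2 h1 h2 c3 x
  by_cases y : (M G g.hc).cl {s(v, a)} s(b, d)
  swap
  · exact ok3 g hb ha n.symm d1 d2 h2 h1 d3 y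
  exfalso
  have cb : c ≠ b := by
    rintro rfl
    rw [Sym2.eq_swap, Sym2.eq_swap (a := a)] at x
    exact np2 g hb.symm c1.symm ha.ne x
  obtain ⟨Y, y1, y2, y3⟩ := cut g hb (by simp [ha.ne, c2.symm])
    (sym (nl g (by exact hb)) (nl g (by exact c1)) x)
  obtain ⟨Z, z1, z2, z3⟩ := cut g ha (by simp [hb.ne, d2.symm])
    (sym (nl g (by exact ha)) (nl g (by exact d1)) y)
  have zc : ¬ Z c := fun t => by
    simpa [n, cb, ha.ne', c2] using z3 a c c1 (by tauto)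
  have yd : ¬ Y d := fun t => by
    simpa [n.symm, cb.symm, hb.ne', d2] using y3 b d d1 (by tauto)
  refine np2 g hb ha n.symm ((cl_iff (by exact ha)).2 (Or.inr ⟨fun t => Y t ∧ Z t,
    cr_iff.2 (by tauto), fun p q r s => ?_⟩))
  rw [mem_singleton]
  by_cases t : Y p ↔ Y q
  · refine Or.inr ((z3 p q r (by tauto)).resolve_left fun e => ?_)
    rcases Sym2.eq_iff.1 e with ⟨rfl, rfl⟩ | ⟨rfl, rfl⟩ <;> tauto
  · refine Or.inl ((y3 p q r t).resolve_left fun e => ?_)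
    rcases Sym2.eq_iff.1 e with ⟨rfl, rfl⟩ | ⟨rfl, rfl⟩ <;> tauto

theorem open1 {D : Finset (Sym2 V)} (h : (M G g.hc).r D < (M G g.hc).R) :
    ∃ u v, G.Adj u v ∧ ¬ (M G g.hc).cl D s(u, v) := by
  by_contra hn
  push Not at hn
  have a := span (M := M G g.hc) (A := D) (B := G.edgeFinset) fun f hf => by
    induction f using Sym2.ind with
    | h u v => exact hn u v (by simpa using hf)
  have b : (M G g.hc).r G.edgeFinset ≤ (M G g.hc).r (D ∪ G.edgeFinset) := rmono subset_union_right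
  rw [rE] at b
  omega

theorem phase2 (j : ℕ) : ∀ (D : Finset (Sym2 V)) (k : ℕ) (p : ℤ[X]), k + j + 1 = (M G g.hc).R →
    (M G g.hc).r D ≤ k → D ⊆ G.edgeFinset → D.Nonempty → (M G g.hc).T D k p →
    nn ((M G g.hc).P ∅ G.edgeFinset - p * (X + 2) ^ j * (X + 3)) := by
  have pre : ∀ D : Finset (Sym2 V), (M G g.hc).r D < (M G g.hc).R → D ⊆ G.edgeFinset →
      D.Nonempty → ∃ v a b c, True ∧ St G v a b c ∧ ¬ (M G g.hc).cl D s(v, a) ∧
        ¬ (M G g.hc).cl D s(v, b) ∧ (M G g.hc).cl D s(v, c) := by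
    rintro D h s ⟨e, he⟩
    obtain ⟨u, v, a, b⟩ := open1 g h
    induction e using Sym2.ind with
    | h p q =>
      exact mixed g (fun _ => True) (by simp) (p := p) (q := q) (by simpa using s he) (cl_mem he)
        a trivial b
  induction j with
  | zero =>
    intro D k p h1 h2 h3 h4 t
    obtain ⟨v, a, b, c, -, s, x, y, -⟩ := pre D (by omega) h3 h4
    obtain ⟨L, o, l⟩ := three g s.a s.b s.1 x y
    have := step 3 t o.2.1 o.2.2 l
    rw [show k + 1 = (M G g.hc).R by omega] at this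
    simpa using fin this (union_subset h3 o.1) fun e he => nl g (by simpa using he)
  | succ j ih =>
    intro D k p h1 h2 h3 h4 t
    obtain ⟨v, a, b, c, -, s, x, y, z⟩ := pre D (by omega) h3 h4
    have := step (L := {s(v, a), s(v, b)}) 2 t (by simp [x, y]) (by
      simp only [mem_insert, mem_singleton]
      rintro e (rfl | rfl) f (rfl | rfl) <;>
        simp [np2 g s.a s.b s.1, np2 g s.b s.a s.1.symm])
      (by rw [card_pair (by simp [s.1, s.a.ne, s.b.ne])])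
    have r := rk1 (M := M G g.hc) (D := D) (L := {s(v, a), s(v, b)}) (e := s(v, a)) (by
      have := star g (D := insert s(v, a) D) s.s12 (cl_mem (mem_insert_self _ _))
        (z.mono (subset_insert _ _))
      simp [this, cl_mem])
    convert ih _ _ _ (by omega) (by omega) (union_subset h3 (by simp [insert_subset_iff, s.a, s.b]))
      (h4.mono subset_union_left) this using 2
    push_cast
    ring

end Pool.Agent.H.MP_76bad1_co.C
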