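import Mathlib
import Pool.Agent.H.MP_76bad1_co.C

set_option autoImplicit false
set_option linter.unusedSectionVars false
open Finset SimpleGraph Polynomial

namespace Pool.Agent.H.MP_76bad1_co.D
open Pool.Agent.H.MP_76bad1_co.A Pool.Agent.H.MP_76bad1_co.B Pool.Agent.H.MP_76bad1_co.C

variable {V : Type} [Fintype V] [DecidableEq V] {G : SimpleGraph V} [DecidableRel G.Adj]
variable (g : Cub G)

def Side (Z : Finset V) (p q : V) (e : Sym2 V) : Prop :=
  G.Adj p q ∧ p ∈ Z ∧ e ∈ G.edgeSet ∧ (M G g.hc).cl {s(p, q)} e ∧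
    ∀ u v, G.Adj u v → u ∈ Z → v ∉ Z → s(u, v) = s(p, q) ∨ s(u, v) = e

theorem np {Z : Finset V} {p q : V} {e1 : Sym2 V} (h : Side g Z p q e1)
    (hm : ∀ Z' p q e, Side g Z' p q e → Z.card ≤ Z'.card) {a b c d : V} (h1 : G.Adj a b)
    (ha : a ∈ Z) (hb : b ∈ Z) (h2 : G.Adj c d) (hc : c ∈ Z) (n : s(a, b) ≠ s(c, d)) :
    ¬ (M G g.hc).cl {s(c, d)} s(a, b) := by
  classical
  intro x
  have x' := sym (nl g (by exact h2)) (nl g (by exact h1)) x
  have k : ∀ (a b : V) (Y : V → Prop), G.Adj a b → a ∈ Z → b ∈ Z → Y a → ¬ Y b →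
      (M G g.hc).cl {s(a, b)} s(c, d) →
      (∀ u v, G.Adj u v → ¬ (Y u ↔ Y v) → s(u, v) = s(c, d) ∨ s(u, v) = s(a, b)) →
      ∃ u v, G.Adj u v ∧ u ∈ Z ∧ v ∉ Z ∧ Y u ∧ Y v := by
    intro a b Y h1 ha hb y1 y2 x d
    by_contra hn
    have := hm (Z.filter Y) a b _ ⟨h1, by simp [ha, y1], h2, x, fun u v s t r => by
      rw [mem_filter] at t r
      by_cases y : Y v
      · exact absurd ⟨u, v, s, t.1, by tauto, t.2, y⟩ hn
      · exact (d u v s (by tauto)).symm⟩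
    exact absurd this (not_le.2 (card_lt_card (filter_ssubset.2 ⟨b, hb, y2⟩)))
  obtain ⟨Y, y1, y2, y3⟩ := cut g h1 n x
  obtain ⟨u, v, s1, s2, s3, s4, s5⟩ := k a b Y h1 ha hb y1 y2 x' y3
  obtain ⟨u', v', t1, t2, t3, t4, t5⟩ := k b a (fun x => ¬ Y x) h1.symm hb ha y2 (by tauto)
    (Sym2.eq_swap ▸ x') fun u v s t => by
      rw [Sym2.eq_swap (a := b)]
      exact y3 u v s (by tauto)
  have k2 : ∀ x y, G.Adj x y → Y x ∧ x ∉ Z → ¬ (Y y ∧ y ∉ Z) → s(x, y) = s(u, v) := by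
    intro x y r s t
    by_cases z : y ∈ Z
    · have n1 : s(y, x) ≠ s(u', v') := fun e => by
        rcases Sym2.eq_iff.1 e with ⟨rfl, rfl⟩ | ⟨rfl, rfl⟩ <;> tauto
      have n2 : s(u, v) ≠ s(u', v') := fun e => by
        rcases Sym2.eq_iff.1 e with ⟨rfl, rfl⟩ | ⟨rfl, rfl⟩ <;> tauto
      rw [Sym2.eq_swap]
      rcases h.2.2.2.2 y x r.symm z s.2 with a1 | a1 <;>
        rcases h.2.2.2.2 u v s1 s2 s3 with a2 | a2 <;>
        rcases h.2.2.2.2 u' v' t1 t2 t3 with a3 | a3 <;> simp_all only [ne_eq, not_true_eq_false]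
    · rcases y3 x y r (by tauto) with e | e <;>
        rcases Sym2.eq_iff.1 e with ⟨rfl, rfl⟩ | ⟨rfl, rfl⟩ <;> tauto
  refine nob g (fun x => Y x ∧ x ∉ Z) s1 (by tauto) fun x y r s => ?_
  by_cases e : Y x ∧ x ∉ Z
  · exact k2 x y r e (by tauto)
  · rw [Sym2.eq_swap]
    exact k2 y x r.symm (by tauto) e

def I (G : SimpleGraph V) [DecidableRel G.Adj] (Z : Finset V) : Finset (Sym2 V) :=
  G.edgeFinset.filter fun f => ∀ x ∈ f, x ∈ Z

theorem mI {Z : Finset V} {a b : V} : s(a, b) ∈ I G Z ↔ G.Adj a b ∧ a ∈ Z ∧ b ∈ Z := by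
  simp [I]

theorem out {Z : Finset V} {p q : V} {e1 : Sym2 V} (h : Side g Z p q e1) (hZ : Z ≠ univ) :
    ∃ u v, G.Adj u v ∧ ¬ (M G g.hc).cl (insert s(p, q) (I G Z)) s(u, v) := by
  obtain ⟨t, ht⟩ : ∃ t, t ∉ Z := by
    by_contra c
    exact hZ (eq_univ_of_forall (by simpa using c))
  obtain ⟨w⟩ := g.hc.preconnected p t
  obtain ⟨⟨⟨x, y⟩, a1⟩, -, a2, a3⟩ := w.exists_boundary_dart (Z : Set V) h.2.1 ht
  simp only [mem_coe] at a1 a2 a3
  obtain ⟨x', y', b1, b2, b3, b4⟩ : ∃ x' y', G.Adj x' y' ∧ x' ∈ Z ∧ y' ∉ Z ∧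
      s(x', y') ≠ s(x, y) := by
    by_contra c
    push Not at c
    refine nob g (· ∈ Z) a1 (by tauto) fun u v r s => ?_
    by_cases e : u ∈ Z
    · exact c u v r e (by tauto)
    · rw [Sym2.eq_swap]
      exact c v u r.symm (by tauto) e
  have c1 := h.2.2.2.2 x y a1 a2 a3
  have c2 := h.2.2.2.2 x' y' b1 b2 b3
  have par : (M G g.hc).cl {s(x, y)} s(x', y') := by
    rcases c1 with c1 | c1 <;> rcases c2 with c2 | c2
    · exact absurd (c2.trans c1.symm) b4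
    · exact c1 ▸ c2 ▸ h.2.2.2.1
    · exact c1 ▸ c2 ▸ sym (nl g (by exact h.1)) (nl g h.2.2.1) h.2.2.2.1
    · exact absurd (c2.trans c1.symm) b4
  have all : ∀ u v, G.Adj u v → u ∈ Z → v ∉ Z → s(u, v) = s(x, y) ∨ v = y' := by
    intro u v r s t
    have : s(u, v) = s(x, y) ∨ s(u, v) = s(x', y') := by
      rcases h.2.2.2.2 u v r s t with c | c <;> rcases c1 with c1 | c1 <;>
        rcases c2 with c2 | c2 <;> simp_all only [ne_eq, not_true_eq_false, or_true, true_or]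
    refine this.imp_right fun e => ?_
    rcases Sym2.eq_iff.1 e with ⟨rfl, rfl⟩ | ⟨rfl, rfl⟩ <;> tauto
  have yy : y ≠ y' := by
    rintro rfl
    rw [Sym2.eq_swap, Sym2.eq_swap (a := x')] at par
    exact np2 g a1.symm b1.symm (by rintro rfl; exact b4 rfl) par
  obtain ⟨a, b, s⟩ := ex1 g.h3 a1.symm
  have az : a ∉ Z := fun z => by
    simpa [s.1.symm, yy, a1.ne'] using all a y s.b.symm z a3
  refine ⟨y, a, s.b, fun c => ?_⟩
  have nm : ∀ u v, u ∉ Z → v ∉ Z → s(u, v) ∉ insert s(p, q) (I G Z) := by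
    intro u v r t e
    rcases mem_insert.1 e with e | e
    · have := h.2.1
      rcases Sym2.eq_iff.1 e with ⟨rfl, rfl⟩ | ⟨rfl, rfl⟩ <;> tauto
    · exact r (mI.1 e).2.1
  have k : ∀ Y : V → Prop, ¬ Y y' → ¬ (Y y ↔ Y a) → (∀ u v, G.Adj u v → ¬ (Y u ↔ Y v) →
      s(u, v) ∈ insert s(p, q) (I G Z) ∨ s(u, v) = s(y, a)) → False := by
    intro Y y1 y2 y3
    have k2 : ∀ u v, G.Adj u v → Y u ∧ u ∉ Z → ¬ (Y v ∧ v ∉ Z) →
        s(u, v) = s(y, x) ∨ s(u, v) = s(y, a) := by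
      intro u v r t z
      by_cases e : v ∈ Z
      · rcases all v u r.symm e t.2 with c | rfl
        · exact Or.inl (by rw [Sym2.eq_swap, c, Sym2.eq_swap])
        · exact absurd t.1 y1
      · exact Or.inr ((y3 u v r (by tauto)).resolve_left (nm u v t.2 e))
    refine np2 g s.a s.b s.1 ((cl_iff (by exact s.b)).2 (Or.inr ⟨fun t => Y t ∧ t ∉ Z,
      cr_iff.2 (by tauto), fun u v r t => ?_⟩))
    rw [mem_singleton]
    by_cases e : Y u ∧ u ∉ Z
    · exact k2 u v r e (by tauto)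
    · rw [Sym2.eq_swap]
      exact k2 v u r.symm (by tauto) e
  rcases (cl_iff (by exact s.b)).1 c with c | ⟨Y, y1, y2⟩
  · exact nm y a a3 az c
  · rw [cr_iff] at y1
    by_cases e : Y y'
    · exact k (fun t => ¬ Y t) (by tauto) (by tauto) fun u v r t => y2 u v r (by tauto)
    · exact k Y e y1 y2

theorem phase1 {Z : Finset V} {p q : V} {e1 : Sym2 V} (h : Side g Z p q e1)
    (hp : ∀ e ∈ I G Z, ∀ f ∈ I G Z, e ≠ f → ¬ (M G g.hc).cl {e} f) (j : ℕ) :
    ∀ (D : Finset (Sym2 V)) (k : ℕ), k + 1 + j = (M G g.hc).R → D ⊆ insert s(p, q) (I G Z) →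
    s(p, q) ∈ D → D.card ≤ 2 * k + 1 → (M G g.hc).r D = k + 1 →
    (∀ f ∈ I G Z, (M G g.hc).cl D f → f ∈ D) → (M G g.hc).T D (k + 1) ((X + 1) * (X + 2) ^ k) →
    (∃ u v, G.Adj u v ∧ u ∈ Z ∧ ¬ (M G g.hc).cl D s(u, v)) →
    ∃ (D L : Finset (Sym2 V)) (k : ℕ), D ∪ L ⊆ insert s(p, q) (I G Z) ∧ D.card ≤ 2 * k + 1 ∧
      (M G g.hc).r (D ∪ L) = k + 2 ∧ (M G g.hc).T D (k + 1) ((X + 1) * (X + 2) ^ k) ∧
      Ok g D L ∧ 3 ≤ L.card ∧ ∀ f ∈ I G Z, (M G g.hc).cl (D ∪ L) f → f ∈ D ∪ L := by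
  classical
  induction j with
  | zero =>
    rintro D k h1 - - - h2 - - ⟨u, v, -, -, h3⟩
    have := ncl h3
    have := (M G g.hc).h3 (insert s(u, v) D)
    omega
  | succ j ih =>
    rintro D k h1 h2 h3 h4 h5 h6 h7 ⟨u, w, h8, h9, h10⟩
    have bd : ∀ u v, G.Adj u v → u ∈ Z → v ∉ Z → (M G g.hc).cl D s(u, v) := by
      intro u v a b c
      rcases h.2.2.2.2 u v a b c with e | e <;> rw [e]
      exacts [cl_mem h3, h.2.2.2.1.mono (by simpa using h3)]
    obtain ⟨v, a, b, c, z, s, x, y, t⟩ := mixed g (· ∈ Z) bd h.1 (cl_mem h3) h8 h9 h10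
    have az : a ∈ Z := by
      by_contra e
      exact x (bd _ _ s.a z e)
    have bz : b ∈ Z := by
      by_contra e
      exact y (bd _ _ s.b z e)
    let L := (I G Z).filter fun f => ¬ (M G g.hc).cl D f ∧ (M G g.hc).cl (insert s(v, a) D) f
    have la : s(v, a) ∈ L := mem_filter.2 ⟨mI.2 ⟨s.a, z, az⟩, x, cl_mem (mem_insert_self _ _)⟩
    have lb : s(v, b) ∈ L := mem_filter.2 ⟨mI.2 ⟨s.b, z, bz⟩, y, star g s.s12
      (cl_mem (mem_insert_self _ _)) (t.mono (subset_insert _ _))⟩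
    have o : Ok g D L := ⟨(filter_subset _ _).trans (filter_subset _ _),
      fun e he => (mem_filter.1 he).2.1,
      fun e he f hf => hp e (mem_filter.1 he).1 f (mem_filter.1 hf).1⟩
    have s1 : D ∪ L ⊆ insert s(p, q) (I G Z) :=
      union_subset h2 ((filter_subset _ _).trans (subset_insert _ _))
    have r : (M G g.hc).r (D ∪ L) = k + 2 := by
      have a1 := rk1 (M := M G g.hc) (D := D) (L := L) fun f hf => (mem_filter.1 hf).2.2
      have a2 : (M G g.hc).r (insert s(v, a) D) ≤ (M G g.hc).r (D ∪ L) :=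
        rmono (insert_subset (mem_union_right _ la) subset_union_left)
      have := ncl x
      omega
    have cd : ∀ f ∈ I G Z, (M G g.hc).cl (D ∪ L) f → f ∈ D ∪ L := by
      intro f hf e
      by_cases d : (M G g.hc).cl D f
      · exact mem_union_left _ (h6 f hf d)
      · refine mem_union_right _ (mem_filter.2 ⟨hf, d, trans (fun f hf => ?_) e⟩)
        rcases mem_union.1 hf with e | e
        exacts [cl_mem (mem_insert_of_mem e), (mem_filter.1 e).2.2]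
    by_cases l : 3 ≤ L.card
    · exact ⟨D, L, k, s1, h4, r, h7, o, l, cd⟩
    have c2 : ({s(v, a), s(v, b)} : Finset _).card = 2 := card_pair (by simp [s.1, s.b.ne])
    have e : {s(v, a), s(v, b)} = L :=
      eq_of_subset_of_card_le (by simp [insert_subset_iff, la, lb]) (by omega)
    refine ih (D ∪ L) (k + 1) (by omega) s1 (mem_union_left _ h3) ?_ r cd ?_ ?_
    · have := card_union_le D L
      omega
    · convert step 2 h7 o.2.1 o.2.2 (by rw [← e, c2]) using 1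
      push_cast
      ring
    · obtain ⟨d, d1, d2, d3⟩ := next g s.a x
      refine ⟨a, d, d1, az, fun f => d3 ?_⟩
      by_cases dz : d ∈ Z
      · rcases mem_union.1 (cd _ (mI.2 ⟨d1, az, dz⟩) f) with f | f
        · exact cl_mem f
        · rw [← e] at f
          simp [s.1, s.a.ne', d2] at f
      · exact bd _ _ d1 az dz

end Pool.Agent.H.MP_76bad1_co.D
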