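import Mathlib
import Pool.Agent.H.MP_76bad1_co.D

set_option autoImplicit false
set_option linter.unusedSectionVars false
open Finset SimpleGraph Polynomial

namespace Pool.Agent.H.MP_76bad1_co.E
open Pool.Agent.H.MP_76bad1_co.A Pool.Agent.H.MP_76bad1_co.B Pool.Agent.H.MP_76bad1_co.C
open Pool.Agent.H.MP_76bad1_co.D

def pull {ι κ : Type} [DecidableEq ι] [DecidableEq κ] (N : Rk ι) (φ : κ → ι) : Rk κ where
  r := fun D => N.r (D.image φ)
  R := N.R
  h1 := fun A e => by simpa only [image_insert] using N.h1 _ _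
  h2 := fun A B e s h => by
    simp only [image_insert] at h ⊢
    exact N.h2 _ _ _ (image_subset_image s) h
  h3 := fun A => N.h3 _
  h0 := by simpa using N.h0

theorem pullP {ι κ : Type} [DecidableEq ι] [DecidableEq κ] (N : Rk ι) {φ : κ → ι}
    (h : Function.Injective φ) (Y : Finset κ) : (pull N φ).P ∅ Y = N.P ∅ (Y.image φ) := by
  rw [Rk.P, Rk.P, powerset_image, sum_image fun a _ b _ e => image_injective h e]
  refine sum_congr rfl fun S _ => ?_
  simp [pull, card_image_of_injective _ h]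

variable {V : Type} [Fintype V] [DecidableEq V] {G : SimpleGraph V} [DecidableRel G.Adj]
variable (g : Cub G)
include g

theorem edges : 2 * G.edgeFinset.card = 3 * Fintype.card V := by
  rw [← sum_degrees_eq_twice_card_edges, sum_congr rfl fun v _ => g.h3 v]
  simp [mul_comm]

theorem hR : (M G g.hc).R = G.edgeFinset.card + 1 - Fintype.card V := rfl

theorem tri (hp : ∀ e ∈ G.edgeSet, ∀ f ∈ G.edgeSet, e ≠ f → ¬ (M G g.hc).cl {e} f)
    (h4 : (M G g.hc).R = 4) {s u v w : V} (h : St G s u v w) (uv : G.Adj u v) :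
    nn ((M G g.hc).P ∅ G.edgeFinset - (X + 1) * (X + 2) * (X + 3) ^ 2) := by
  obtain ⟨a, ha⟩ := ex2 g.h3 uv h.a.symm h.b.ne'
  obtain ⟨b, hb⟩ := ex2 g.h3 uv.symm h.b.symm h.a.ne'
  have pw : ∀ L : Finset (Sym2 V), L ⊆ G.edgeFinset →
      ∀ e ∈ L, ∀ f ∈ L, e ≠ f → ¬ (M G g.hc).cl {e} f := fun L l e he f hf =>
    hp e (by simpa using l he) f (by simpa using l hf)
  have t := step (L := {s(s, v), s(s, w)}) 2 (step (M := M G g.hc) (L := {s(s, u)}) 1 T0
    (by simpa using nl g (e := s(s, u)) h.a) (by simp) (by simp))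
    (by simp [np2 g h.a h.b h.1, np2 g h.a h.c h.2.1])
    (pw _ (by simp [insert_subset_iff, h.b, h.c]))
    (by rw [card_pair (by simp [h.2.2.1, h.c.ne])])
  have r1 := rk1 (M := M G g.hc) (D := ∅) (L := {s(s, u)}) (e := s(s, u)) (by simp [cl_mem])
  have r2 := rk1 (M := M G g.hc) (D := ∅ ∪ {s(s, u)}) (L := {s(s, v), s(s, w)}) (e := s(s, v)) (by
    have := star g (D := insert s(s, v) (∅ ∪ {s(s, u)})) h.s23.s12 (cl_mem (by simp))
      (cl_mem (by simp))
    simpa [cl_mem] using this)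
  rw [(M G g.hc).h0] at r1
  have sF : ∅ ∪ {s(s, u)} ∪ {s(s, v), s(s, w)} ⊆ G.edgeFinset := by
    simp [insert_subset_iff, h.a, h.b, h.c]
  have m : ∀ e, e ∈ (∅ ∪ {s(s, u)} ∪ {s(s, v), s(s, w)} : Finset _) ↔
      e = s(s, u) ∨ e = s(s, v) ∨ e = s(s, w) := by
    simp only [mem_union, mem_insert, mem_singleton, notMem_empty]
    tauto
  generalize (∅ ∪ {s(s, u)} ∪ {s(s, v), s(s, w)} : Finset _) = F at t r2 sF m
  have k : ∀ u v : V, St G s u v w → G.Adj u v → ∀ Y : V → Prop, (Y u ↔ Y w) → ¬ (Y u ↔ Y v) →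
      (∀ p q, G.Adj p q → ¬ (Y p ↔ Y q) →
        (s(p, q) = s(s, u) ∨ s(p, q) = s(s, v) ∨ s(p, q) = s(s, w)) ∨ s(p, q) = s(v, u)) →
      False := by
    intro u v h uv Y y1 y2 y3
    have k2 : ∀ q, G.Adj s q → ¬ (Y w ↔ Y q) → s(s, q) = s(v, s) := by
      intro q a b
      rcases (h.2.2.2 q).1 a with rfl | rfl | rfl
      exacts [by tauto, Sym2.eq_swap, by tauto]
    refine np2 g h.b.symm uv.symm h.a.ne ((cl_iff (by exact uv.symm)).2 (Or.inr
      ⟨fun x => (x = s ∧ Y w) ∨ (x ≠ s ∧ Y x), cr_iff.2 ?_, fun p q a b => ?_⟩))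
    · have := h.a.ne'
      have := h.b.ne'
      tauto
    rw [mem_singleton]
    by_cases e1 : p = s
    · subst e1
      have := a.ne'
      exact Or.inl (k2 q a (by tauto))
    by_cases e2 : q = s
    · subst e2
      rw [Sym2.eq_swap (a := p)]
      exact Or.inl (k2 p a.symm (by tauto))
    refine Or.inr ((y3 p q a (by tauto)).resolve_left ?_)
    simp [e1, e2]
  have n1 : ¬ (M G g.hc).cl F s(u, v) := by
    intro c
    rcases (cl_iff (by exact uv)).1 c with c | ⟨Y, y1, y2⟩
    · simp [m, h.a.ne', h.b.ne'] at c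
    · rw [cr_iff] at y1
      simp only [m] at y2
      by_cases e : Y u ↔ Y w
      · exact k u v h uv Y e y1 (by simpa only [Sym2.eq_swap (a := v)] using y2)
      · exact k v u h.s12 uv.symm Y (by tauto) (by tauto) fun p q a b => by
          have := y2 p q a b
          tauto
  have su : (M G g.hc).cl F s(u, s) := cl_mem (by simp [m])
  have sv : (M G g.hc).cl F s(v, s) := cl_mem (by simp [m])
  have sL : {s(u, v), s(u, a), s(v, b)} ⊆ G.edgeFinset := by
    simp [insert_subset_iff, uv, ha.c, hb.c]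
  have t2 := step (L := {s(u, v), s(u, a), s(v, b)}) 3 t (by
      have n2 : ¬ (M G g.hc).cl F s(u, a) := fun c => n1 (star g ha su c)
      have n3 : ¬ (M G g.hc).cl F s(v, b) := fun c => n1 (Sym2.eq_swap ▸ star g hb sv c)
      simp [n1, n2, n3]) (pw _ sL) (by
      rw [card_eq_three.2 ⟨_, _, _, by simp [ha.2.1, ha.c.ne], by simp [uv.ne, hb.2.1],
        by simp [uv.ne, hb.2.1], rfl⟩])
  have r3 := rk1 (M := M G g.hc) (D := F) (L := {s(u, v), s(u, a), s(v, b)}) (e := s(u, v)) (by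
    have a1 := star g (D := insert s(u, v) F) ha.s23.s12 (cl_mem (by simp))
      (su.mono (subset_insert _ _))
    have a2 := star g (D := insert s(u, v) F) hb.s23.s12 (cl_mem (by simp))
      (sv.mono (subset_insert _ _))
    simp [a1, a2, cl_mem])
  convert phase2 g 0 _ _ _ (by omega) (by omega) (union_subset sF sL) (by simp) t2 using 2
  push_cast
  ring

theorem six (hp : ∀ e ∈ G.edgeSet, ∀ f ∈ G.edgeSet, e ≠ f → ¬ (M G g.hc).cl {e} f)
    (h6 : Fintype.card V = 6) :
    nn ((M G g.hc).P ∅ G.edgeFinset - (X + 1) * (X + 2) * (X + 3) ^ 2) := by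
  have h4 : (M G g.hc).R = 4 := by
    have := edges g
    rw [hR g]
    omega
  obtain ⟨s⟩ := g.hc.nonempty
  obtain ⟨u, hu⟩ := (G.degree_pos_iff_exists_adj s).1 (by rw [g.h3 s]; norm_num)
  obtain ⟨v, w, h⟩ := ex1 g.h3 hu
  by_cases uv : G.Adj u v
  · exact tri g hp h4 h uv
  by_cases uw : G.Adj u w
  · exact tri g hp h4 h.s23 uw
  by_cases vw : G.Adj v w
  · exact tri g hp h4 h.s12.s23 vw
  obtain ⟨p, q, t⟩ := ex1 g.h3 hu.symm
  have pv : p ≠ v := fun e => uv (e ▸ t.b)
  have pw : p ≠ w := fun e => uw (e ▸ t.b)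
  have qv : q ≠ v := fun e => uv (e ▸ t.c)
  have qw : q ≠ w := fun e => uw (e ▸ t.c)
  let f : Fin 6 → V := ![s, u, p, v, q, w]
  have hf : Function.Injective f := by
    have := h.a.ne
    have := h.b.ne
    have := h.c.ne
    have := h.1
    have := h.2.1
    have := h.2.2.1
    have := t.1
    have := t.2.1
    have := t.2.2.1
    have := t.b.ne
    have := t.c.ne
    have := pv.symm
    have := qw.symm
    rw [← List.nodup_ofFn]
    simp [f, *]
    tauto
  have hs : ∀ x, x = s ∨ x = u ∨ x = p ∨ x = v ∨ x = q ∨ x = w := by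
    intro x
    obtain ⟨i, rfl⟩ := ((Fintype.bijective_iff_injective_and_card f).2 ⟨hf, by simp [h6]⟩).2 x
    fin_cases i <;> simp [f]
  have k : ∀ y, G.Adj y s → ¬ G.Adj y u → ¬ G.Adj y v → ¬ G.Adj y w → G.Adj y p ∧ G.Adj y q := by
    intro y a b c d
    obtain ⟨x, z, r⟩ := ex1 g.h3 a
    have r1 := r.b
    have r2 := r.c
    have r3 := r.1
    have r4 := r.2.1
    have r5 := r.2.2.1
    rcases hs x with rfl | rfl | rfl | rfl | rfl | rfl <;>
      rcases hs z with rfl | rfl | rfl | rfl | rfl | rfl <;> tauto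
  have kv := k v h.b.symm (fun e => uv e.symm) (G.irrefl) vw
  have kw := k w h.c.symm (fun e => uw e.symm) (fun e => vw e.symm) G.irrefl
  have adj : ∀ i j : Fin 6, i.val % 2 ≠ j.val % 2 → G.Adj (f i) (f j) := by
    intro i j
    fin_cases i <;> fin_cases j <;> simp [f, h.a, h.b, h.c, h.a.symm, h.b.symm, h.c.symm, t.b,
      t.c, t.b.symm, t.c.symm, kv.1, kv.2, kw.1, kw.2, kv.1.symm, kv.2.symm, kw.1.symm, kw.2.symm]
  have inj : Function.Injective (Sym2.map f) := Sym2.map.injective hf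
  have := k33 (pull (M G g.hc) (Sym2.map f)) h4 (by
    rintro D e ⟨a, i, j, k, l, rfl, b1, b2, b3, c1, c2, c3⟩ c
    have c : (M G g.hc).cl (D.image (Sym2.map f)) s(f i, f j) := by
      simpa only [Rk.cl, pull, image_insert, Sym2.map_mk] using c
    rcases (cl_iff (by exact adj i j (by omega))).1 c with c | ⟨Y, y1, y2⟩
    · exact a ((inj.mem_finset_image (a := s(i, j))).1 c)
    · have z : ∀ x y : Fin 6, x.val % 2 ≠ y.val % 2 → s(x, y) ∉ insert s(i, j) D →
          (Y (f x) ↔ Y (f y)) := by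
        intro x y r n
        by_contra o
        rcases y2 _ _ (adj x y r) o with o | o
        · exact n (mem_insert_of_mem ((inj.mem_finset_image (a := s(x, y))).1 o))
        · exact n (mem_insert.2 (Or.inl (inj o)))
      exact cr_iff.1 y1 (((z _ _ b1 c1).trans (z _ _ b2 c2)).trans (z _ _ b3 c3)))
  rw [pullP _ inj] at this
  have a := mono (M := M G g.hc) (A := ∅) (Y := E0.image (Sym2.map f)) (Z := G.edgeFinset)
    fun e he => nl g (by simpa using he)
  rw [union_eq_right.2 (by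
    simp only [E0, image_insert, image_singleton, insert_subset_iff, singleton_subset_iff,
      Sym2.map_mk, mem_edgeFinset, mem_edgeSet]
    refine ⟨?_, ?_, ?_, ?_, ?_, ?_, ?_, ?_, ?_⟩ <;> exact adj _ _ (by decide))] at a
  convert a.add this using 1
  ring

theorem main (h6 : 6 ≤ Fintype.card V) : nn ((M G g.hc).P ∅ G.edgeFinset -
    (X + 1) * (X + 2) ^ (Fintype.card V / 2 - 2) * (X + 3) ^ 2) := by
  classical
  have he := edges g
  have hr := hR g
  obtain ⟨s⟩ := g.hc.nonempty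
  obtain ⟨u, hu⟩ := (G.degree_pos_iff_exists_adj s).1 (by rw [g.h3 s]; norm_num)
  obtain ⟨Z, hZ, hm⟩ := (univ.filter fun Z : Finset V => ∃ p q e, Side g Z p q e).exists_min_image
    card ⟨univ, mem_filter.2 ⟨mem_univ _, s, u, s(s, u), hu, mem_univ _, hu, cl_mem (by simp),
      by simp⟩⟩
  obtain ⟨p, q, e1, h⟩ := (mem_filter.1 hZ).2
  have hm' : ∀ Z' p q e, Side g Z' p q e → Z.card ≤ Z'.card := fun Z' p q e x =>
    hm Z' (mem_filter.2 ⟨mem_univ _, p, q, e, x⟩)
  have hp : ∀ e ∈ I G Z, ∀ f ∈ I G Z, e ≠ f → ¬ (M G g.hc).cl {e} f := by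
    intro e he f hf n
    induction e using Sym2.ind
    induction f using Sym2.ind
    rw [mI] at he hf
    exact np g h hm' hf.1 hf.2.1 hf.2.2 he.1 he.2.1 n.symm
  have n0 := nl g (e := s(p, q)) h.1
  obtain ⟨a, b, st⟩ := ex1 g.h3 h.1
  obtain ⟨D, L, k, s1, c1, r, t, o, l, cd⟩ := phase1 g h hp ((M G g.hc).R - 1) {s(p, q)} 0
    (by omega) (by simp) (by simp) (by simp) (by simpa [(M G g.hc).h0] using ncl n0) (by
      intro f hf c
      induction f using Sym2.ind
      rw [mI] at hf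
      by_contra n
      exact np g h hm' hf.1 hf.2.1 hf.2.2 h.1 h.2.1 (by simpa only [mem_singleton] using n) c)
    (by simpa using step (M := M G g.hc) (L := {s(p, q)}) 1 T0 (by simpa using n0) (by simp) (by simp))
    ⟨p, a, st.b, h.2.1, np2 g st.a st.b st.1⟩
  have sE : D ∪ L ⊆ G.edgeFinset :=
    s1.trans (insert_subset (by simpa using h.1) (filter_subset _ _))
  have r' := (M G g.hc).h3 (D ∪ L)
  by_cases lt : k + 2 < (M G g.hc).R
  · have := phase2 g ((M G g.hc).R - k - 3) _ _ _ (by omega) r.le sE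
      ((card_pos.1 (by omega)).mono subset_union_right) (step 3 t o.2.1 o.2.2 l)
    rw [show Fintype.card V / 2 - 2 = k + ((M G g.hc).R - k - 3) by omega]
    convert this using 2
    push_cast
    ring
  have all : ∀ f, (M G g.hc).cl (D ∪ L) f := by
    intro f
    by_contra n
    have := ncl n
    have := (M G g.hc).h3 (insert f (D ∪ L))
    omega
  have hu : Z = univ := by
    by_contra n
    obtain ⟨x, y, -, c⟩ := out g h n
    exact c ((all _).mono s1)
  have hI : I G Z = G.edgeFinset := by simp [hu, I]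
  by_cases e6 : Fintype.card V = 6
  · simpa [e6] using six g (by simpa [hI] using hp) e6
  have c2 := (card_le_card fun f hf => cd f (hI ▸ hf) (all f)).trans (card_union_le D L)
  have := step 5 t o.2.1 o.2.2 (by omega)
  rw [show k + 1 + 1 = (M G g.hc).R by omega] at this
  have := fin this sE fun e he => nl g (by simpa using he)
  obtain ⟨j, rfl⟩ : ∃ j, k = j + 1 := ⟨k - 1, by omega⟩
  rw [show Fintype.card V / 2 - 2 = j by omega]
  convert this.add (((nnL 1).mul ((nnL 2).pow j)).mul (nnL 1)) using 1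
  push_cast
  ring

end Pool.Agent.H.MP_76bad1_co.E
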